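import Pool.Agent.U96.Unicoh.Space

set_option autoImplicit false

namespace Pool.Agent.U96.Unicoh

open Topology Set unitInterval

/-- The quotient map, as a map to complex space. -/
def v (p : X) : ℂ × ℂ × ℂ × ℂ :=
  (p.1.1 * p.1.2.1, p.1.1 * p.1.2.2, p.1.2.1 ^ 2, p.1.2.2 ^ 2)

theorem continuous_v : Continuous v := by
  unfold v
  fun_prop

theorem v_neg (p : X) : v (neg p) = v p := by
  simp [v, neg]

theorem v_eq {p q : X} (h : v p = v q) : q = p ∨ q = neg p := by
  obtain ⟨⟨t, z, w⟩, hp, hp0⟩ := p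
  obtain ⟨⟨t', z', w'⟩, hq, hq0⟩ := q
  simp only [v, Prod.mk.injEq] at h hp hp0 hq hq0
  obtain ⟨a1, a2, a3, a4⟩ := h
  by_cases hz : z = 0
  · have hz' : z' = 0 := by
      rw [hz] at a3
      have : z' ^ 2 = 0 := by rw [← a3]; simp
      simpa using this
    subst hz hz'
    by_cases hw : w = 0
    · have hw' : w' = 0 := by
        rw [hw] at a4
        have : w' ^ 2 = 0 := by rw [← a4]; simp
        simpa using this
      subst hw hw'
      simp only [norm_zero] at hp hq
      have : t' ^ 2 = t ^ 2 := by linarith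
      rcases sq_eq_sq_iff_eq_or_eq_neg.1 this with h | h
      · left; apply Subtype.ext; simp [h]
      · right; apply Subtype.ext; simp [h, neg]
    · rcases sq_eq_sq_iff_eq_or_eq_neg.1 a4.symm with h | h
      · left
        rw [h] at a2
        have : (t' : ℂ) = t := (mul_right_cancel₀ hw a2).symm
        have : t' = t := by exact_mod_cast this
        apply Subtype.ext
        simp [h, this]
      · right
        rw [h] at a2
        have h2 : (t' : ℂ) = -t := by
          have : (t : ℂ) * w = (-t') * w := by rw [a2]; ring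
          have := mul_right_cancel₀ hw this
          rw [this]; ring
        have : t' = -t := by exact_mod_cast h2
        apply Subtype.ext
        simp [h, this, neg]
  · have hw : w = 0 := by
      rcases mul_eq_zero.1 hp0 with h | h
      · exact absurd h hz
      · exact h
    subst hw
    have hw' : w' = 0 := by
      have : w' ^ 2 = 0 := by rw [← a4]; simp
      simpa using this
    subst hw'
    rcases sq_eq_sq_iff_eq_or_eq_neg.1 a3.symm with h | h
    · left
      rw [h] at a1
      have : (t' : ℂ) = t := (mul_right_cancel₀ hz a1).symm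
      have : t' = t := by exact_mod_cast this
      apply Subtype.ext
      simp [h, this]
    · right
      rw [h] at a1
      have h2 : (t' : ℂ) = -t := by
        have : (t : ℂ) * z = (-t') * z := by rw [a1]; ring
        have := mul_right_cancel₀ hz this
        rw [this]; ring
      have : t' = -t := by exact_mod_cast h2
      apply Subtype.ext
      simp [h, this, neg]

/-- The quotient space: two projective planes meeting in a point. -/
abbrev Y : Type := Set.range v

/-- The quotient map. -/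
def f (p : X) : Y := ⟨v p, p, rfl⟩

theorem continuous_f : Continuous f := Continuous.subtype_mk continuous_v _

theorem surjective_f : Function.Surjective f := by
  rintro ⟨_, p, rfl⟩
  exact ⟨p, rfl⟩

theorem f_neg (p : X) : f (neg p) = f p := Subtype.ext (v_neg p)

theorem f_eq {p q : X} (h : f p = f q) : q = p ∨ q = neg p :=
  v_eq (congrArg Subtype.val h)

theorem quot_f : IsQuotientMap f :=
  continuous_f.isClosedMap.isQuotientMap continuous_f surjective_f

theorem neg_neg' (p : X) : neg (neg p) = p := by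
  apply Subtype.ext; simp [neg]

theorem isOpenMap_f : IsOpenMap f := by
  intro U hU
  rw [← quot_f.isOpen_preimage]
  have : f ⁻¹' (f '' U) = U ∪ neg ⁻¹' U := by
    ext p
    constructor
    · rintro ⟨q, hq, hqp⟩
      rcases f_eq hqp with h | h
      · left; rw [h]; exact hq
      · right
        show neg p ∈ U
        rw [h, neg_neg']; exact hq
    · rintro (h | h)
      · exact ⟨p, h, rfl⟩
      · exact ⟨neg p, h, f_neg p⟩
  rw [this]
  exact hU.union (hU.preimage continuous_neg')

/-- antipodal points are at distance at least one -/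
theorem dist_neg (p q : X) (h : q = neg p) : 1 < dist p q := by
  subst h
  obtain ⟨⟨t, z, w⟩, hp, hp0⟩ := p
  simp only at hp hp0
  by_contra hcon
  push Not at hcon
  have hd : dist ((t, z, w) : E) (-(t, z, w)) ≤ 1 := hcon
  rw [Prod.neg_mk, Prod.neg_mk, Prod.dist_eq, Prod.dist_eq] at hd
  simp only [dist_eq_norm, sub_neg_eq_add, max_le_iff] at hd
  obtain ⟨d1, d2, d3⟩ := hd
  have e1 : ‖t + t‖ = 2 * |t| := by
    rw [← two_mul, norm_mul]; simp
  have e2 : ‖z + z‖ = 2 * ‖z‖ := by
    rw [← two_mul, norm_mul]; simp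
  have e3 : ‖w + w‖ = 2 * ‖w‖ := by
    rw [← two_mul, norm_mul]; simp
  rw [e1] at d1
  rw [e2] at d2
  rw [e3] at d3
  have f1 : t ^ 2 ≤ 1 / 4 := by
    rw [← sq_abs]
    have := abs_nonneg t
    nlinarith
  have f2 : ‖z‖ ^ 2 ≤ 1 / 4 := by
    have := norm_nonneg z
    nlinarith
  have f3 : ‖w‖ ^ 2 ≤ 1 / 4 := by
    have := norm_nonneg w
    nlinarith
  linarith

theorem isLocalHomeomorph_f : IsLocalHomeomorph f := by
  rw [isLocalHomeomorph_iff_isOpenEmbedding_restrict]
  intro x
  refine ⟨Metric.ball x (1/2), Metric.ball_mem_nhds _ (by norm_num), ?_⟩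
  apply IsOpenEmbedding.of_continuous_injective_isOpenMap
  · exact continuous_f.comp continuous_subtype_val
  · rintro ⟨p, hp⟩ ⟨q, hq⟩ hpq
    apply Subtype.ext
    rcases f_eq (p := p) (q := q) hpq with h | h
    · exact h.symm
    · exfalso
      have h1 := dist_neg p q h
      have h2 := dist_triangle_right p q x
      rw [Metric.mem_ball] at hp hq
      linarith
  · exact isOpenMap_f.comp Metric.isOpen_ball.isOpenMap_subtype_val

/-- Two disks cover the quotient. -/
noncomputable def Phi : D ⊕ D → Y := Sum.elim (f ∘ h1) (f ∘ h2)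

theorem continuous_Phi : Continuous Phi :=
  (continuous_f.comp continuous_h1).sumElim (continuous_f.comp continuous_h2)

theorem surjective_Phi : Function.Surjective Phi := by
  intro y
  obtain ⟨p, rfl⟩ := surjective_f y
  rcases cases_X p with ⟨z, rfl⟩ | ⟨z, rfl⟩ | ⟨z, rfl⟩ | ⟨z, rfl⟩
  · exact ⟨Sum.inl z, rfl⟩
  · exact ⟨Sum.inr z, rfl⟩
  · exact ⟨Sum.inl z, (f_neg _).symm⟩
  · exact ⟨Sum.inr z, (f_neg _).symm⟩

theorem quot_Phi : IsQuotientMap Phi :=
  continuous_Phi.isClosedMap.isQuotientMap continuous_Phi surjective_Phi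

/-- Coordinates determine points of the hemispheres. -/
theorem h1_eq {z w : D} (h : h1 w = h1 z) : w = z := by
  have := congrArg (fun p : X => p.1.2.1) h
  exact Subtype.ext this

theorem h2_eq {z w : D} (h : h2 w = h2 z) : w = z := by
  have := congrArg (fun p : X => p.1.2.2) h
  exact Subtype.ext this

theorem h1_neg {z w : D} (h : h1 w = neg (h1 z)) :
    (w : ℂ) = -(z : ℂ) ∧ ‖(z : ℂ)‖ = 1 := by
  have e1 : (w : ℂ) = -(z : ℂ) := congrArg (fun p : X => p.1.2.1) h
  have e2 : Real.sqrt (1 - ‖(w:ℂ)‖ ^ 2) = -Real.sqrt (1 - ‖(z:ℂ)‖ ^ 2) :=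
    congrArg (fun p : X => p.1.1) h
  refine ⟨e1, ?_⟩
  rw [e1, norm_neg] at e2
  have h0 : Real.sqrt (1 - ‖(z:ℂ)‖ ^ 2) = 0 := by linarith
  have h3 := sqrt_sq_D z
  rw [h0] at h3
  have h4 := norm_nonneg (z:ℂ)
  nlinarith

theorem h2_neg {z w : D} (h : h2 w = neg (h2 z)) :
    (w : ℂ) = -(z : ℂ) ∧ ‖(z : ℂ)‖ = 1 := by
  have e1 : (w : ℂ) = -(z : ℂ) := congrArg (fun p : X => p.1.2.2) h
  have e2 : Real.sqrt (1 - ‖(w:ℂ)‖ ^ 2) = -Real.sqrt (1 - ‖(z:ℂ)‖ ^ 2) :=
    congrArg (fun p : X => p.1.1) h
  refine ⟨e1, ?_⟩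
  rw [e1, norm_neg] at e2
  have h0 : Real.sqrt (1 - ‖(z:ℂ)‖ ^ 2) = 0 := by linarith
  have h3 := sqrt_sq_D z
  rw [h0] at h3
  have h4 := norm_nonneg (z:ℂ)
  nlinarith

theorem h1_h2 {z w : D} (h : h1 w = h2 z) : w = zeroD ∧ z = zeroD := by
  have e1 : (w : ℂ) = 0 := congrArg (fun p : X => p.1.2.1) h
  have e2 : (0 : ℂ) = (z : ℂ) := congrArg (fun p : X => p.1.2.2) h
  exact ⟨Subtype.ext e1, Subtype.ext e2.symm⟩

theorem h1_neg_h2 {z w : D} (h : h1 w = neg (h2 z)) : w = zeroD ∧ z = zeroD := by
  have e1 : (w : ℂ) = -0 := congrArg (fun p : X => p.1.2.1) h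
  have e2 : (0 : ℂ) = -(z : ℂ) := congrArg (fun p : X => p.1.2.2) h
  refine ⟨Subtype.ext ?_, Subtype.ext ?_⟩
  · rw [e1]; simp [zeroD]
  · have : (z : ℂ) = 0 := by
      have := e2.symm
      simpa using this
    rw [this]; rfl

/-- The antipodal map of the disk. -/
def negD (z : D) : D := ⟨-(z:ℂ), by
  have hz := z.2
  rw [mem_closedBall_zero_iff] at hz ⊢
  rw [norm_neg]; exact hz⟩

theorem continuous_negD : Continuous negD := Continuous.subtype_mk continuous_subtype_val.neg _

/-- A lift on the disk of an antipodally symmetric map is antipodally symmetric on the boundary. -/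
theorem lift_symm {G : D → ℝ} (hG : Continuous G)
    (hexp : ∀ z : D, ‖(z:ℂ)‖ = 1 → Circle.exp (G (negD z)) = Circle.exp (G z))
    (z : D) (hz : ‖(z:ℂ)‖ = 1) : G (negD z) = G z := by
  -- the boundary circle is connected
  have hcirc : IsPreconnected {z : D | ‖(z:ℂ)‖ = 1} := by
    have h1 : IsPreconnected (Metric.sphere (0:ℂ) 1) := by
      apply isPreconnected_sphere
      rw [Complex.rank_real_complex]
      norm_num
    have h2 : Subtype.val '' {z : D | ‖(z:ℂ)‖ = 1} = Metric.sphere (0:ℂ) 1 := by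
      ext z
      constructor
      · rintro ⟨w, hw, rfl⟩
        simpa using hw
      · intro hz
        have hz' : ‖z‖ = 1 := by simpa using hz
        exact ⟨⟨z, by rw [mem_closedBall_zero_iff, hz']⟩, hz', rfl⟩
    rw [← Topology.IsInducing.subtypeVal.isPreconnected_image, h2]
    exact h1
  have hconst := const_of_int hcirc (f := fun z => G (negD z) - G z)
    ((hG.comp continuous_negD).sub hG).continuousOn
    (by intro z hz; exact (exp_eq_iff _ _).1 (hexp z hz))
    (a := z) (b := negD z) hz (by show ‖-(z:ℂ)‖ = 1; rw [norm_neg]; exact hz)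
  have hnn : negD (negD z) = z := by apply Subtype.ext; simp [negD]
  simp only [hnn] at hconst
  linarith

/-- Maps from the quotient to the circle lift. -/
theorem LP_Y : LP Y := by
  intro g hg
  obtain ⟨G1, hG1, hg1⟩ := LP_D (fun z => g (f (h1 z)))
    (hg.comp (continuous_f.comp continuous_h1))
  obtain ⟨G2, hG2, hg2⟩ := LP_D (fun z => g (f (h2 z)))
    (hg.comp (continuous_f.comp continuous_h2))
  -- symmetry on the boundary
  have hs1 : ∀ z : D, ‖(z:ℂ)‖ = 1 → G1 (negD z) = G1 z := by
    refine lift_symm hG1 ?_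
    intro z hz
    rw [hg1, hg1]
    have : h1 (negD z) = neg (h1 z) := by
      apply Subtype.ext
      simp [h1, neg, negD, hz]
    rw [this, f_neg]
  have hs2 : ∀ z : D, ‖(z:ℂ)‖ = 1 → G2 (negD z) = G2 z := by
    refine lift_symm hG2 ?_
    intro z hz
    rw [hg2, hg2]
    have : h2 (negD z) = neg (h2 z) := by
      apply Subtype.ext
      simp [h2, neg, negD, hz]
    rw [this, f_neg]
  -- normalise at the base point
  have hb : ∃ n : ℤ, G2 zeroD - G1 zeroD = 2 * Real.pi * n := by
    rw [← exp_eq_iff, hg1, hg2, h1_zero]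
  obtain ⟨n, hn⟩ := hb
  let K : C(D ⊕ D, ℝ) := ⟨Sum.elim G1 (fun z => G2 z - 2 * Real.pi * n),
    hG1.sumElim (hG2.sub continuous_const)⟩
  have hK1 : ∀ z, K (Sum.inl z) = G1 z := fun z => rfl
  have hK2 : ∀ z, K (Sum.inr z) = G2 z - 2 * Real.pi * n := fun z => rfl
  have hbase : K (Sum.inl zeroD) = K (Sum.inr zeroD) := by
    rw [hK1, hK2]; linarith
  have hfib : ∀ a b : D ⊕ D, Phi a = Phi b → K a = K b := by
    have hz_of : ∀ {z w : D}, (w : ℂ) = -(z:ℂ) → w = negD z := by
      intro z w h
      exact Subtype.ext h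
    have h12 : ∀ z w : D, f (h1 z) = f (h2 w) → K (Sum.inl z) = K (Sum.inr w) := by
      intro z w h
      rcases f_eq h.symm with h' | h'
      · obtain ⟨e1, e2⟩ := h1_h2 h'
        rw [e1, e2]; exact hbase
      · obtain ⟨e1, e2⟩ := h1_neg_h2 h'
        rw [e1, e2]; exact hbase
    rintro (z | z) (w | w) h
    · rcases f_eq (show f (h1 z) = f (h1 w) from h) with h' | h'
      · rw [h1_eq h']
      · obtain ⟨e1, e2⟩ := h1_neg h'
        rw [hK1, hK1, hz_of e1, hs1 z e2]
    · exact h12 z w h
    · exact (h12 w z h.symm).symm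
    · rcases f_eq (show f (h2 z) = f (h2 w) from h) with h' | h'
      · rw [h2_eq h']
      · obtain ⟨e1, e2⟩ := h2_neg h'
        rw [hK2, hK2, hz_of e1, hs2 z e2]
  let PhiC : C(D ⊕ D, Y) := ⟨Phi, continuous_Phi⟩
  have hq : IsQuotientMap PhiC := quot_Phi
  let G := hq.lift K hfib
  have hGK : ∀ a, G (Phi a) = K a := by
    intro a
    have := hq.lift_comp K hfib
    exact congrFun (congrArg DFunLike.coe this) a
  refine ⟨G, G.continuous, ?_⟩
  intro y
  obtain ⟨a, rfl⟩ := surjective_Phi y
  rw [hGK]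
  rcases a with z | z
  · rw [hK1, hg1]; rfl
  · have h3 := hg2 z
    rw [hK2]
    have h4 : Circle.exp (G2 z - 2 * Real.pi * n) = Circle.exp (G2 z) := by
      rw [exp_eq_iff]
      exact ⟨-n, by push_cast; ring⟩
    rw [h4, h3]; rfl

instance : ConnectedSpace Y := surjective_f.connectedSpace continuous_f

end Pool.Agent.U96.Unicoh
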