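import Mathlib

set_option autoImplicit false

namespace Pool.Agent.U96.Unicoh

open Topology Set unitInterval

/-- Every map to the circle lifts to the real line. -/
def LP (Z : Type*) [TopologicalSpace Z] : Prop :=
  ∀ g : Z → Circle, Continuous g → ∃ G : Z → ℝ, Continuous G ∧ ∀ z, Circle.exp (G z) = g z

/-- A continuous function on a preconnected set whose values are in `2πℤ` is constant. -/
theorem const_of_int {Z : Type*} [TopologicalSpace Z] {S : Set Z} (hS : IsPreconnected S)
    {f : Z → ℝ} (hf : ContinuousOn f S) (hint : ∀ z ∈ S, ∃ n : ℤ, f z = 2 * Real.pi * n)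
    {a b : Z} (ha : a ∈ S) (hb : b ∈ S) : f a = f b := by
  have key : ∀ a ∈ S, ∀ b ∈ S, ¬ f a < f b := by
    intro a ha b hb hlt
    obtain ⟨n, hn⟩ := hint a ha
    obtain ⟨m, hm⟩ := hint b hb
    have hpi := Real.pi_pos
    have hnm : n < m := by
      by_contra hcon
      push Not at hcon
      have : (m : ℝ) ≤ n := by exact_mod_cast hcon
      rw [hn, hm] at hlt
      nlinarith
    have hnm' : (n : ℝ) + 1 ≤ m := by exact_mod_cast hnm
    have hmid : f a + Real.pi ∈ Set.Icc (f a) (f b) := by
      constructor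
      · linarith
      · rw [hn, hm]; nlinarith
    obtain ⟨c, hc, hfc⟩ := hS.intermediate_value ha hb hf hmid
    obtain ⟨k, hk⟩ := hint c hc
    rw [hfc, hn] at hk
    have h2 : (2 * (k - n) : ℝ) = 1 := by
      have : Real.pi * (2 * (k - n) - 1) = 0 := by linarith
      rcases mul_eq_zero.1 this with h | h
      · linarith
      · linarith
    have h3 : (2 * (k - n) : ℤ) = 1 := by exact_mod_cast h2
    omega
  exact le_antisymm (not_lt.1 (key b hb a ha)) (not_lt.1 (key a ha b hb))

theorem exp_eq_iff (x y : ℝ) : Circle.exp x = Circle.exp y ↔ ∃ n : ℤ, x - y = 2 * Real.pi * n := by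
  rw [Circle.exp_eq_exp]
  constructor
  · rintro ⟨m, hm⟩
    exact ⟨m, by rw [hm]; ring⟩
  · rintro ⟨m, hm⟩
    exact ⟨m, by linarith⟩

/-- The lifting property implies unicoherence. -/
theorem isConnected_inter {Z : Type*} [TopologicalSpace Z] [NormalSpace Z] [ConnectedSpace Z]
    (h : LP Z) {A B : Set Z} (hA : IsClosed A) (hB : IsClosed B) (hAc : IsConnected A)
    (hBc : IsConnected B) (hAB : A ∪ B = univ) : IsConnected (A ∩ B) := by
  classical
  have hne : (A ∩ B).Nonempty := by
    have := (isPreconnected_closed_iff.1 (isPreconnected_univ (α := Z))) A B hA hB hAB.ge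
      (by simpa using hAc.nonempty) (by simpa using hBc.nonempty)
    simpa using this
  refine ⟨hne, ?_⟩
  rw [isPreconnected_closed_iff]
  intro t t' ht ht' hsub hP hQ
  by_contra hcon
  set P := A ∩ B ∩ t with hPdef
  set Q := A ∩ B ∩ t' with hQdef
  have hPc : IsClosed P := (hA.inter hB).inter ht
  have hQc : IsClosed Q := (hA.inter hB).inter ht'
  have hdis : Disjoint P Q := by
    rw [Set.disjoint_left]
    rintro x ⟨hx1, hx2⟩ ⟨_, hx3⟩
    exact hcon ⟨x, hx1, hx2, hx3⟩
  obtain ⟨u, hu0, hu1, -⟩ := exists_continuous_zero_one_of_isClosed hPc hQc hdis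
  have hpi := Real.pi_pos
  -- the map to the circle
  let g : Z → Circle := fun z => if z ∈ A then Circle.exp (Real.pi * u z)
    else Circle.exp (-(Real.pi * u z))
  have hgA : ∀ z ∈ A, g z = Circle.exp (Real.pi * u z) := fun z hz => if_pos hz
  have hgB : ∀ z ∈ B, g z = Circle.exp (-(Real.pi * u z)) := by
    intro z hz
    by_cases hzA : z ∈ A
    · rw [hgA z hzA]
      rcases hsub ⟨hzA, hz⟩ with h1 | h1
      · have : u z = 0 := hu0 ⟨⟨hzA, hz⟩, h1⟩
        simp [this]
      · have : u z = 1 := hu1 ⟨⟨hzA, hz⟩, h1⟩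
        rw [this, exp_eq_iff]
        exact ⟨1, by push_cast; ring⟩
    · exact if_neg hzA
  have hg : Continuous g := by
    have h1 : ContinuousOn g A := by
      refine ContinuousOn.congr ?_ hgA
      exact (Circle.exp.continuous.comp (continuous_const.mul u.continuous)).continuousOn
    have h2 : ContinuousOn g B := by
      refine ContinuousOn.congr ?_ hgB
      exact (Circle.exp.continuous.comp (continuous_const.mul u.continuous).neg).continuousOn
    have h3 := h1.union_of_isClosed h2 hA hB
    rw [hAB] at h3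
    exact continuousOn_univ.1 h3
  obtain ⟨G, hG, hGg⟩ := h g hg
  obtain ⟨p, hp⟩ := hP
  obtain ⟨q, hq⟩ := hQ
  have hup : u p = 0 := hu0 hp
  have huq : u q = 1 := hu1 hq
  have e1 : G p - Real.pi * u p = G q - Real.pi * u q := by
    refine const_of_int hAc.isPreconnected
      (f := fun z => G z - Real.pi * u z) ?_ ?_ hp.1.1 hq.1.1
    · exact (hG.sub (continuous_const.mul u.continuous)).continuousOn
    · intro z hz
      have := hGg z
      rw [hgA z hz, exp_eq_iff] at this
      exact this
  have e2 : G p + Real.pi * u p = G q + Real.pi * u q := by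
    refine const_of_int hBc.isPreconnected
      (f := fun z => G z + Real.pi * u z) ?_ ?_ hp.1.2 hq.1.2
    · exact (hG.add (continuous_const.mul u.continuous)).continuousOn
    · intro z hz
      have := hGg z
      rw [hgB z hz, exp_eq_iff] at this
      obtain ⟨n, hn⟩ := this
      exact ⟨n, by linarith⟩
  rw [hup, huq] at e1 e2
  linarith

/-- The closed unit disk in the plane. -/
abbrev D : Type := Metric.closedBall (0:ℂ) 1

theorem mul_mem_D (s : I) (z : D) : (s : ℝ) • (z : ℂ) ∈ Metric.closedBall (0:ℂ) 1 := by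
  have hz := z.2
  rw [mem_closedBall_zero_iff] at hz ⊢
  rw [norm_smul, Real.norm_eq_abs, abs_of_nonneg s.2.1]
  exact mul_le_one₀ s.2.2 (norm_nonneg _) hz

/-- Maps from the disk to the circle lift. -/
theorem LP_D : LP D := by
  intro g hg
  have hz0 : (0:ℂ) ∈ Metric.closedBall (0:ℂ) 1 := by simp
  let H : C(I × D, Circle) :=
    ⟨fun p => g ⟨(p.1 : ℝ) • (p.2 : ℂ), mul_mem_D p.1 p.2⟩, by
      apply hg.comp
      apply Continuous.subtype_mk
      fun_prop⟩
  obtain ⟨e, he⟩ : ∃ e : ℝ, Circle.exp e = g ⟨0, hz0⟩ := ⟨_, Circle.exp_arg _⟩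
  let f : C(D, ℝ) := ContinuousMap.const D e
  have H0 : ∀ a, H (0, a) = Circle.exp (f a) := by
    intro a
    show g _ = Circle.exp e
    rw [he]
    congr 1
    apply Subtype.ext
    simp
  let L := Circle.isCoveringMap_exp.liftHomotopy H f H0
  refine ⟨fun z => L (1, z), L.continuous.comp (by fun_prop), ?_⟩
  intro z
  have := congrFun (Circle.isCoveringMap_exp.liftHomotopy_lifts H f H0) (1, z)
  simp only [Function.comp_apply] at this
  rw [this]
  show g _ = g z
  congr 1
  apply Subtype.ext
  simp

end Pool.Agent.U96.Unicoh
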