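import Pool.Agent.U96.Unicoh.Basic

set_option autoImplicit false

namespace Pool.Agent.U96.Unicoh

open Topology Set unitInterval

/-- The ambient space. -/
abbrev E : Type := ℝ × ℂ × ℂ

/-- Two round spheres meeting in two antipodal points. -/
def XS : Set E := {p | p.1 ^ 2 + ‖p.2.1‖ ^ 2 + ‖p.2.2‖ ^ 2 = 1 ∧ p.2.1 * p.2.2 = 0}

abbrev X : Type := XS

theorem neg_mem {p : E} (hp : p ∈ XS) : -p ∈ XS := by
  obtain ⟨h1, h2⟩ := hp
  refine ⟨?_, ?_⟩
  · simpa using h1
  · simpa using h2

/-- The antipodal map. -/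
def neg (p : X) : X := ⟨-p.1, neg_mem p.2⟩

theorem continuous_neg' : Continuous neg :=
  Continuous.subtype_mk continuous_subtype_val.neg _

theorem sqrt_sq_D (z : D) : Real.sqrt (1 - ‖(z:ℂ)‖ ^ 2) ^ 2 = 1 - ‖(z:ℂ)‖ ^ 2 := by
  apply Real.sq_sqrt
  have hz := z.2
  rw [mem_closedBall_zero_iff] at hz
  have := norm_nonneg (z:ℂ)
  nlinarith

/-- Upper hemisphere of the first sphere. -/
noncomputable def h1 (z : D) : X := ⟨(Real.sqrt (1 - ‖(z:ℂ)‖ ^ 2), (z:ℂ), 0), by
  refine ⟨?_, by simp⟩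
  have := sqrt_sq_D z
  simp only [norm_zero]
  linarith⟩

/-- Upper hemisphere of the second sphere. -/
noncomputable def h2 (z : D) : X := ⟨(Real.sqrt (1 - ‖(z:ℂ)‖ ^ 2), 0, (z:ℂ)), by
  refine ⟨?_, by simp⟩
  have := sqrt_sq_D z
  simp only [norm_zero]
  linarith⟩

theorem continuous_h1 : Continuous h1 := by
  apply Continuous.subtype_mk
  fun_prop

theorem continuous_h2 : Continuous h2 := by
  apply Continuous.subtype_mk
  fun_prop

theorem isClosed_XS : IsClosed XS := by
  apply IsClosed.inter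
  · exact isClosed_eq (by fun_prop) continuous_const
  · exact isClosed_eq (by fun_prop) continuous_const

theorem isCompact_XS : IsCompact XS := by
  refine Metric.isCompact_of_isClosed_isBounded isClosed_XS ?_
  rw [isBounded_iff_forall_norm_le]
  refine ⟨1, ?_⟩
  rintro ⟨t, z, w⟩ ⟨h, -⟩
  simp only at h
  have ht : |t| ≤ 1 := by
    rw [abs_le_one_iff_mul_self_le_one]
    nlinarith [sq_nonneg ‖z‖, sq_nonneg ‖w‖]
  have hz : ‖z‖ ≤ 1 := by
    have := norm_nonneg z
    nlinarith [sq_nonneg t, sq_nonneg ‖w‖]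
  have hw : ‖w‖ ≤ 1 := by
    have := norm_nonneg w
    nlinarith [sq_nonneg t, sq_nonneg ‖z‖]
  simp only [Prod.norm_def, Real.norm_eq_abs]
  exact max_le ht (max_le hz hw)

instance : CompactSpace X := isCompact_iff_compactSpace.1 isCompact_XS

/-- Every point of `X` is in one of four hemispheres. -/
theorem cases_X (p : X) : (∃ z, p = h1 z) ∨ (∃ z, p = h2 z) ∨ (∃ z, p = neg (h1 z)) ∨
    (∃ z, p = neg (h2 z)) := by
  obtain ⟨⟨t, z, w⟩, h, h0⟩ := p
  simp only at h h0
  have hz : ‖z‖ ≤ 1 := by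
    have := norm_nonneg z
    nlinarith [sq_nonneg t, sq_nonneg ‖w‖]
  have hw : ‖w‖ ≤ 1 := by
    have := norm_nonneg w
    nlinarith [sq_nonneg t, sq_nonneg ‖z‖]
  rcases mul_eq_zero.1 h0 with hz0 | hw0
  · subst hz0
    simp only [norm_zero] at h
    have ht : 1 - ‖w‖ ^ 2 = t ^ 2 := by linarith
    rcases le_total 0 t with h0t | h0t
    · right; left
      refine ⟨⟨w, by simpa using hw⟩, ?_⟩
      apply Subtype.ext
      simp only [h2, ht, Real.sqrt_sq h0t]
    · right; right; right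
      refine ⟨⟨-w, by simpa using hw⟩, ?_⟩
      apply Subtype.ext
      simp only [neg, h2, norm_neg, ht, Real.sqrt_sq_eq_abs, abs_of_nonpos h0t]
      simp
  · subst hw0
    simp only [norm_zero] at h
    have ht : 1 - ‖z‖ ^ 2 = t ^ 2 := by linarith
    rcases le_total 0 t with h0t | h0t
    · left
      refine ⟨⟨z, by simpa using hz⟩, ?_⟩
      apply Subtype.ext
      simp only [h1, ht, Real.sqrt_sq h0t]
    · right; right; left
      refine ⟨⟨-z, by simpa using hz⟩, ?_⟩
      apply Subtype.ext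
      simp only [neg, h1, norm_neg, ht, Real.sqrt_sq_eq_abs, abs_of_nonpos h0t]
      simp

/-- A map from four disks onto `X`. -/
noncomputable def Psi : (D ⊕ D) ⊕ (D ⊕ D) → X :=
  Sum.elim (Sum.elim h1 h2) (Sum.elim (neg ∘ h1) (neg ∘ h2))

theorem continuous_Psi : Continuous Psi := by
  apply Continuous.sumElim
  · exact continuous_h1.sumElim continuous_h2
  · exact (continuous_neg'.comp continuous_h1).sumElim (continuous_neg'.comp continuous_h2)

theorem surjective_Psi : Function.Surjective Psi := by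
  intro p
  rcases cases_X p with ⟨z, hz⟩ | ⟨z, hz⟩ | ⟨z, hz⟩ | ⟨z, hz⟩
  · exact ⟨Sum.inl (Sum.inl z), hz.symm⟩
  · exact ⟨Sum.inl (Sum.inr z), hz.symm⟩
  · exact ⟨Sum.inr (Sum.inl z), hz.symm⟩
  · exact ⟨Sum.inr (Sum.inr z), hz.symm⟩

instance : CompactSpace D := isCompact_iff_compactSpace.1 (isCompact_closedBall _ _)

instance : LocallyPathConnectedSpace D := (convex_closedBall (0:ℂ) 1).locallyPathConnectedSpace

instance : ConnectedSpace D :=
  isConnected_iff_connectedSpace.1 ((convex_closedBall (0:ℂ) 1).isConnected ⟨0, by simp⟩)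

instance : LocallyPathConnectedSpace X :=
  (continuous_Psi.isClosedMap.isQuotientMap continuous_Psi surjective_Psi).locallyPathConnectedSpace

instance : LocallyConnectedSpace X := inferInstance

/-- The first sphere. -/
def S1 : Set X := {p | p.1.2.2 = 0}
/-- The second sphere. -/
def S2 : Set X := {p | p.1.2.1 = 0}

theorem isClosed_S1 : IsClosed S1 := isClosed_eq (by fun_prop) continuous_const
theorem isClosed_S2 : IsClosed S2 := isClosed_eq (by fun_prop) continuous_const

theorem union_S : S1 ∪ S2 = univ := by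
  ext p
  simp only [Set.mem_union, Set.mem_univ, iff_true]
  rcases mul_eq_zero.1 p.2.2 with h | h
  · exact Or.inr h
  · exact Or.inl h

/-- the point `1` of the disk -/
def oneD : D := ⟨1, by simp⟩
def negOneD : D := ⟨-1, by simp⟩
def zeroD : D := ⟨0, by simp⟩

theorem h1_zero : h1 zeroD = h2 zeroD := by
  apply Subtype.ext
  simp [h1, h2, zeroD]

theorem isConnected_S1 : IsConnected S1 := by
  have e : S1 = range h1 ∪ range (neg ∘ h1) := by
    ext p
    constructor
    · intro hp
      rcases cases_X p with ⟨z, hz⟩ | ⟨z, hz⟩ | ⟨z, hz⟩ | ⟨z, hz⟩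
      · exact Or.inl ⟨z, hz.symm⟩
      · have h0 : (z : ℂ) = 0 := by rw [hz] at hp; exact hp
        have : z = zeroD := Subtype.ext h0
        rw [this, ← h1_zero] at hz
        exact Or.inl ⟨_, hz.symm⟩
      · exact Or.inr ⟨z, hz.symm⟩
      · have h0 : (z : ℂ) = 0 := by
          rw [hz] at hp
          have : -(z:ℂ) = 0 := hp
          simpa using this
        have : z = zeroD := Subtype.ext h0
        rw [this, ← h1_zero] at hz
        exact Or.inr ⟨_, hz.symm⟩
    · rintro (⟨z, rfl⟩ | ⟨z, rfl⟩)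
      · rfl
      · show -(0:ℂ) = 0
        simp
  rw [e]
  refine IsConnected.union ⟨h1 oneD, ⟨_, rfl⟩, ⟨negOneD, ?_⟩⟩ (isConnected_range continuous_h1)
    (isConnected_range (continuous_neg'.comp continuous_h1))
  apply Subtype.ext
  simp [h1, neg, oneD, negOneD]

theorem isConnected_S2 : IsConnected S2 := by
  have e : S2 = range h2 ∪ range (neg ∘ h2) := by
    ext p
    constructor
    · intro hp
      rcases cases_X p with ⟨z, hz⟩ | ⟨z, hz⟩ | ⟨z, hz⟩ | ⟨z, hz⟩
      · have h0 : (z : ℂ) = 0 := by rw [hz] at hp; exact hp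
        have : z = zeroD := Subtype.ext h0
        rw [this, h1_zero] at hz
        exact Or.inl ⟨_, hz.symm⟩
      · exact Or.inl ⟨z, hz.symm⟩
      · have h0 : (z : ℂ) = 0 := by
          rw [hz] at hp
          have : -(z:ℂ) = 0 := hp
          simpa using this
        have : z = zeroD := Subtype.ext h0
        rw [this, h1_zero] at hz
        exact Or.inr ⟨_, hz.symm⟩
      · exact Or.inr ⟨z, hz.symm⟩
    · rintro (⟨z, rfl⟩ | ⟨z, rfl⟩)
      · rfl
      · show -(0:ℂ) = 0
        simp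
  rw [e]
  refine IsConnected.union ⟨h2 oneD, ⟨_, rfl⟩, ⟨negOneD, ?_⟩⟩ (isConnected_range continuous_h2)
    (isConnected_range (continuous_neg'.comp continuous_h2))
  apply Subtype.ext
  simp [h2, neg, oneD, negOneD]

theorem base_mem : h1 zeroD ∈ S1 ∩ S2 := ⟨rfl, by show ((zeroD : D) : ℂ) = 0; rfl⟩

theorem neg_base_mem : neg (h1 zeroD) ∈ S1 ∩ S2 := by
  refine ⟨?_, ?_⟩
  · show -(0:ℂ) = 0
    simp
  · show -((zeroD : D) : ℂ) = 0
    simp [zeroD]

instance : ConnectedSpace X := by
  rw [connectedSpace_iff_univ, ← union_S]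
  exact IsConnected.union ⟨_, base_mem⟩ isConnected_S1 isConnected_S2

theorem not_isConnected_inter : ¬ IsConnected (S1 ∩ S2) := by
  intro h
  have hc : ContinuousOn (fun p : X => p.1.1) (S1 ∩ S2) := by
    apply Continuous.continuousOn
    fun_prop
  have h0 : (0:ℝ) ∈ Set.Icc ((neg (h1 zeroD)).1.1) ((h1 zeroD).1.1) := by
    simp [neg, h1, zeroD]
  obtain ⟨p, hp, hp0⟩ := h.isPreconnected.intermediate_value neg_base_mem base_mem hc h0
  have e1 : p.1.2.2 = 0 := hp.1
  have e2 : p.1.2.1 = 0 := hp.2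
  have e3 := p.2.1
  rw [e1, e2] at e3
  have e4 : p.1.1 = 0 := hp0
  rw [e4] at e3
  simp at e3

end Pool.Agent.U96.Unicoh
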